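import Mathlib

open MeasureTheory Filter Topology

namespace Pool.Agent.Results.MP_2a72d7_pr.Q1False

/-- The simple tensor x_1 ⊗ ⋯ ⊗ x_d as a vector of the Euclidean space of dimension n^d. -/
noncomputable def tens {n d : ℕ} (x : Fin d → Fin n → ℝ) : EuclideanSpace ℝ (Fin d → Fin n) :=
  WithLp.toLp 2 (fun j => ∏ k, x k (j k))

/-- Law of m independent simple tensors data: all m d n coordinates i.i.d. with law ν. -/
noncomputable def law (ν : Measure ℝ) [SigmaFinite ν] (m d n : ℕ) :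
    Measure (Fin m → Fin d → Fin n → ℝ) :=
  Measure.pi (fun _ => Measure.pi (fun _ => Measure.pi (fun _ => ν)))

/-- σ ≤ σ_min of the matrix whose columns are the tensors built from ω. -/
def SigmaMinGe {m d n : ℕ} (σ : ℝ) (ω : Fin m → Fin d → Fin n → ℝ) : Prop :=
  ∀ a : EuclideanSpace ℝ (Fin m), σ * ‖a‖ ≤ ‖∑ i, a i • tens (ω i)‖

noncomputable def nu : Measure ℝ :=
  (2⁻¹ : ENNReal) • Measure.dirac 0 + (4⁻¹ : ENNReal) • Measure.dirac (√2) +
    (4⁻¹ : ENNReal) • Measure.dirac (-√2)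

instance : IsProbabilityMeasure nu := ⟨by
  simp only [nu, Measure.coe_add, Measure.coe_smul, Pi.add_apply, Pi.smul_apply, measure_univ,
    smul_eq_mul, mul_one]
  have h4 : (4⁻¹ : ENNReal) + 4⁻¹ = 2⁻¹ := by
    rw [show (4 : ENNReal) = 2 * 2 by norm_num, ENNReal.mul_inv (by simp) (by simp), ← add_mul,
      ENNReal.inv_two_add_inv_two, one_mul]
  rw [add_assoc, h4, ENNReal.inv_two_add_inv_two]⟩

lemma integ (f : ℝ → ℝ) : ∫ x, f x ∂nu = 2⁻¹ * f 0 + 4⁻¹ * f (√2) + 4⁻¹ * f (-√2) := by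
  have h : ∀ (c : ENNReal) (hc : c ≠ ⊤) (a : ℝ), Integrable f (c • Measure.dirac a) :=
    fun c hc a => (integrable_dirac (by simp)).smul_measure hc
  unfold nu
  rw [integral_add_measure ((h _ (by simp) _).add_measure (h _ (by simp) _)) (h _ (by simp) _),
    integral_add_measure (h _ (by simp) _) (h _ (by simp) _)]
  simp [integral_smul_measure]

lemma nu_zero : (2⁻¹ : ENNReal) ≤ nu {0} := by
  simp only [nu, Measure.coe_add, Measure.coe_smul, Pi.add_apply, Pi.smul_apply, smul_eq_mul]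
  rw [add_assoc]
  refine le_trans (le_of_eq ?_) le_self_add
  simp

lemma bound (m d n : ℕ) (hd : 0 < d) :
    (law nu m d n).real {ω | ∃ σ > 0, SigmaMinGe σ ω} ≤ (1 - (2⁻¹ : ℝ) ^ n) ^ m := by
  set μ1 : Measure (Fin n → ℝ) := Measure.pi (fun _ => nu) with hμ1
  set μ2 : Measure (Fin d → Fin n → ℝ) := Measure.pi (fun _ => μ1) with hμ2
  set B : Set (Fin d → Fin n → ℝ) := {y | y ⟨0, hd⟩ ∈ ({0} : Set (Fin n → ℝ))ᶜ} with hB
  have hsub : {ω : Fin m → Fin d → Fin n → ℝ | ∃ σ > 0, SigmaMinGe σ ω} ⊆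
      Set.pi Set.univ (fun _ => B) := by
    rintro ω ⟨σ, hσ, h⟩ i _ hi
    have h1 := h (EuclideanSpace.single i 1)
    have h0 : tens (ω i) = 0 := by
      ext j
      simp only [tens, PiLp.zero_apply]
      refine Finset.prod_eq_zero (Finset.mem_univ ⟨0, hd⟩) ?_
      rw [Set.mem_singleton_iff.1 hi]; rfl
    have h2 : ∑ i', (EuclideanSpace.single i (1 : ℝ) : EuclideanSpace ℝ (Fin m)) i' • tens (ω i') = 0 := by
      refine Finset.sum_eq_zero fun i' _ => ?_
      by_cases hi' : i' = i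
      · rw [hi', h0, smul_zero]
      · simp [hi']
    rw [h2] at h1
    simp at h1
    linarith
  have hB1 : μ2.real B ≤ 1 - (2⁻¹ : ℝ) ^ n := by
    have e1 : μ2 B = μ1 ({0} : Set (Fin n → ℝ))ᶜ :=
      (measurePreserving_eval (fun _ : Fin d => μ1) ⟨0, hd⟩).measure_preimage
        (MeasurableSet.singleton 0).compl.nullMeasurableSet
    have e2 : μ1.real ({0} : Set (Fin n → ℝ)) = nu.real {0} ^ n := by
      have : ({0} : Set (Fin n → ℝ)) = Set.pi Set.univ (fun _ => {0}) := by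
        ext x; simp [funext_iff]
      rw [this, Measure.real, hμ1, Measure.pi_pi]
      simp [Measure.real]
    have e3 : (2⁻¹ : ℝ) ≤ nu.real {0} := by
      have := ENNReal.toReal_mono (measure_ne_top _ _) nu_zero
      simpa [Measure.real] using this
    have e4 : μ2.real B = 1 - μ1.real {0} := by
      rw [Measure.real, e1, ← Measure.real, probReal_compl_eq_one_sub (MeasurableSet.singleton 0)]
    rw [e4, e2]
    have := pow_le_pow_left₀ (by norm_num) e3 n
    linarith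
  calc (law nu m d n).real {ω | ∃ σ > 0, SigmaMinGe σ ω}
      ≤ (law nu m d n).real (Set.pi Set.univ (fun _ => B)) := by
        unfold law
        exact measureReal_mono hsub
    _ = μ2.real B ^ m := by
        unfold law
        rw [Measure.real, Measure.pi_pi]
        simp [Measure.real, hμ2, hμ1]
    _ ≤ _ := pow_le_pow_left₀ measureReal_nonneg hB1 m

theorem result :
    ∃ (ν : Measure ℝ) (_ : IsProbabilityMeasure ν),
      ∫ x, x ∂ν = 0 ∧ ∫ x, x ^ 2 ∂ν = 1 ∧ (∀ᵐ x ∂ν, |x| ≤ 2) ∧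
      ∫ x, Real.exp (x ^ 2 / 2 ^ 2) ∂ν ≤ 2 ∧
      ∀ ε : ℝ, 0 < ε → ε < 1 → ∀ d : ℕ → ℕ, (∀ᶠ n : ℕ in atTop, (n : ℝ) ≤ d n * Real.log n) →
        Tendsto (fun n : ℕ => (law ν ⌊(1 - ε) * (n : ℝ) ^ d n⌋₊ (d n) n).real
          {ω | ∃ σ > 0, SigmaMinGe σ ω}) atTop (𝓝 0) := by
  have hs : (√2 : ℝ) ^ 2 = 2 := Real.sq_sqrt (by norm_num)
  have hs2 : (√2 : ℝ) ≤ 2 := by nlinarith [Real.sqrt_nonneg 2]
  refine ⟨nu, inferInstance, ?_, ?_, ?_, ?_, ?_⟩
  · rw [integ (fun x => x)]; ring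
  · rw [integ (fun x => x ^ 2)]; simp only [neg_sq, hs]; norm_num
  · simp only [nu, ae_add_measure_iff]
    refine ⟨⟨?_, ?_⟩, ?_⟩ <;> refine Measure.ae_smul_measure ?_ _ <;>
      simp [abs_of_nonneg (Real.sqrt_nonneg 2), hs2]
  · rw [integ (fun x => Real.exp (x ^ 2 / 2 ^ 2))]
    simp only [neg_sq, hs]
    have h1 : Real.exp (1 / 2) ≤ Real.exp 1 := Real.exp_le_exp.2 (by norm_num)
    have h2 := Real.exp_one_lt_d9
    norm_num
    linarith
  · intro ε h0 h1 d hd
    have he : (1 : ℝ) < Real.exp 1 / 2 := by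
      have := Real.exp_one_gt_d9
      linarith
    have hlim : Tendsto (fun n : ℕ => Real.exp (1 - (1 - ε) * (Real.exp 1 / 2) ^ n)) atTop (𝓝 0) := by
      refine Real.tendsto_exp_atBot.comp ?_
      have := (tendsto_pow_atTop_atTop_of_one_lt he).const_mul_atTop (show 0 < 1 - ε by linarith)
      exact tendsto_atBot_add_const_left _ 1 (tendsto_neg_atTop_atBot.comp this)
    refine squeeze_zero' (Eventually.of_forall fun _ => measureReal_nonneg) ?_ hlim
    filter_upwards [hd, eventually_gt_atTop 0] with n hn hn0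
    have hn0' : (0 : ℝ) < n := by exact_mod_cast hn0
    have hdpos : 0 < d n := by
      rcases Nat.eq_zero_or_pos (d n) with h | h
      · rw [h] at hn; simp at hn; omega
      · exact h
    refine (bound _ _ _ hdpos).trans ?_
    set m := ⌊(1 - ε) * (n : ℝ) ^ d n⌋₊ with hm
    have hq : (0 : ℝ) < 2⁻¹ ^ n := by positivity
    have hq1 : (2⁻¹ : ℝ) ^ n ≤ 1 := pow_le_one₀ (by norm_num) (by norm_num)
    have h3 : (1 - (2⁻¹ : ℝ) ^ n) ^ m ≤ Real.exp (-(2⁻¹ : ℝ) ^ n) ^ m :=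
      pow_le_pow_left₀ (by linarith) (by linarith [Real.add_one_le_exp (-(2⁻¹ : ℝ) ^ n)]) m
    refine h3.trans ?_
    rw [← Real.exp_nat_mul]
    refine Real.exp_le_exp.2 ?_
    have h4 : (1 - ε) * (n : ℝ) ^ d n < m + 1 := Nat.lt_floor_add_one _
    have h5 : Real.exp 1 ^ n ≤ (n : ℝ) ^ d n := by
      rw [← Real.exp_nat_mul, mul_one, ← Real.exp_log (pow_pos hn0' (d n)), Real.log_pow]
      exact Real.exp_le_exp.2 hn
    have h6 : (Real.exp 1 / 2) ^ n = Real.exp 1 ^ n * 2⁻¹ ^ n := by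
      rw [div_eq_mul_inv, mul_pow]
    rw [h6]
    have h7 : (1 - ε) * Real.exp 1 ^ n ≤ m + 1 :=
      (mul_le_mul_of_nonneg_left h5 (by linarith)).trans h4.le
    nlinarith [mul_le_mul_of_nonneg_right h7 hq.le]

end Pool.Agent.Results.MP_2a72d7_pr.Q1False
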